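import Pool.Agent.R250.AC5

set_option autoImplicit false

/-!
# MP_ac5134: the Kakeya inequality in tube form for algebraic choices of the translates

Work in `ℝ^n = ℝ^d × ℝ`, `n = d + 1`, with its Euclidean norm (`Space d`), and let `P` be the
paraboloid `{(ω, |ω|²)}`, `|ω| ≤ 1`.  The box dual to the cap at `ω` is `box N (nor ω) f 0`: its long
side `N²` is in the direction of the unit normal `nor ω = (-2ω, 1)/√(1+4|ω|²)` and its other sides `N`
are in the directions of an arbitrary orthonormal frame `f` of the orthogonal complement.  The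
translated box of the cap `ω i` has the axis through `(β i, 0)` and the height `s i`, `|s i| ≤ S N²`.

1. *Algebraic choices.*  Nothing is assumed about the dependence of the positions `β i` on the caps,
   except that for the points `v` near `ω i` the position `β i` is, up to `K N` in every coordinate,
   `N² a` for some point `a` whose coordinates are zeros of the polynomials `P j (v, ·)`, where
   `P 1, ..., P d` are nonzero polynomials of degree at most `k`.  Which zeros are taken is arbitrary and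
   can change from cap to cap.  Then the conjectured comparison with the centred family holds for every
   `p` in `[1, ∞]` with the constant
   `C ((k + 1)^(d (d + 1)) (1 + K + S)^(d+2) (1 + log N))^θ`, `θ = min ((n-1)(1-1/p)) (1/p)`,
   `C` depending only on `n` and on the constants of the caps.
2. *Towers.*  The same holds, with a factor `1 + M`, for the positions that follow a tower: a map built
   by countable decompositions and skew products with arbitrary measurable dependence on the first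
   factor from planar families, families of bounded overlap, section-monotone families, algebraic
   choices, and stable (for instance regular) zeros of polynomial systems `Q (v, b v) = 0`.
-/

open MeasureTheory Set ENNReal NNReal Metric

namespace Pool.Agent.Results.MP_ac5134_an.AlgebraicTranslates

/-- Euclidean space `ℝ^d`. -/
abbrev Vec (d : ℕ) : Type := EuclideanSpace ℝ (Fin d)

/-- Euclidean space `ℝ^{d+1}`, written as `ℝ^d × ℝ` with the Euclidean norm. -/
abbrev Space (d : ℕ) : Type := WithLp 2 (Vec d × ℝ)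

/-- The unit vector `(v, 1)/√(1+|v|²)`. -/
noncomputable def dir {d : ℕ} (v : Vec d) : Space d :=
  (√(1 + ‖v‖ ^ 2))⁻¹ • WithLp.toLp 2 (v, (1:ℝ))

/-- The unit normal `(-2ω, 1)/√(1+4|ω|²)` of the paraboloid at the point `(ω, |ω|²)`. -/
noncomputable def nor {d : ℕ} (ω : Vec d) : Space d := dir (-(2 : ℝ) • ω)

/-- The box with centre `a`, side `N²` in the direction `e` and sides `N` in the directions `f j`. -/
def box {d : ℕ} (N : ℝ) (e : Space d) (f : Fin d → Space d) (a : Space d) : Set (Space d) :=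
  {y | |inner ℝ e (y - a)| ≤ N ^ 2 / 2 ∧ ∀ j, |inner ℝ (f j) (y - a)| ≤ N / 2}

/-- The caps have centres `ω i` in the closed unit ball, `σ/N`-separated and at least `κ N^d` in
number, and `f i` is an orthonormal frame of the orthogonal complement of the normal at `ω i`. -/
def Caps {d : ℕ} {ι : Type} [Fintype ι] (σ κ N : ℝ) (ω : ι → Vec d) (f : ι → Fin d → Space d) : Prop :=
  (∀ i, ‖ω i‖ ≤ 1) ∧ (∀ i j, i ≠ j → σ / N ≤ ‖ω i - ω j‖) ∧ κ * N ^ d ≤ (Fintype.card ι : ℝ) ∧
    ∀ i, Orthonormal ℝ (Fin.cons (nor (ω i)) (f i) : Fin (d + 1) → Space d)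

/-- The sum of the indicators of the boxes of the caps with centres `a i`. -/
noncomputable def boxSum {d : ℕ} {ι : Type} [Fintype ι] (N : ℝ) (ω : ι → Vec d)
    (f : ι → Fin d → Space d) (a : ι → Space d) (y : Space d) : ℝ :=
  ∑ i, (box N (nor (ω i)) (f i) (a i)).indicator (fun _ => (1 : ℝ)) y

/-- The centre of the box at `ω` whose axis meets the height `0` at `β`; `s` is its height. -/
noncomputable def centre {d : ℕ} (ω β : Vec d) (s : ℝ) : Space d :=
  WithLp.toLp 2 (β + s • (-(2 : ℝ) • ω), s)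

/-- The `L^p` norm of the sum of the boxes with the centres `a i` is at most `C X^θ` times that of the
centred boxes, `θ = min ((n-1)(1-1/p)) (1/p)`, for all `p` in `[1, ∞]`. -/
def Comparison {d : ℕ} {ι : Type} [Fintype ι] (C X N : ℝ) (ω : ι → Vec d) (f : ι → Fin d → Space d)
    (a : ι → Space d) : Prop :=
  ∀ p : ℝ≥0∞, 1 ≤ p → eLpNorm (boxSum N ω f a) p volume ≤
    ENNReal.ofReal (C * X ^ min ((d : ℝ) * (1 - 1 / p.toReal)) (1 / p.toReal)) *
      eLpNorm (boxSum N ω f 0) p volume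

/-! ### Algebraic choices -/

/-- The value of a polynomial in the variables `v` and one more variable `s`. -/
noncomputable def value {d : ℕ} (P : MvPolynomial (Option (Fin d)) ℝ) (v : Vec d) (s : ℝ) : ℝ :=
  MvPolynomial.eval (fun o => o.elim s (fun j => v j)) P

/-- The values at `(v, a)` of a system of polynomials in the two groups of variables `v`, `a`. -/
noncomputable def system {d : ℕ} (Q : Fin d → MvPolynomial (Fin d ⊕ Fin d) ℝ) (v a : Vec d) :
    Vec d :=
  WithLp.toLp 2 (fun i => MvPolynomial.eval (Sum.elim (fun j => v j) (fun j => a j)) (Q i))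

/-- On the ball of radius `σ/(3N)` around the cap centre `ω i` (intersected with the unit ball) the
position `β i` is `N² a`, up to `K N` in every coordinate, for some `a` (which may depend on the
point `v` of the ball) with `P j (v, a j) = 0` for all `j`. -/
def AlgebraicPositions {d : ℕ} {ι : Type} (σ K N : ℝ) (P : Fin d → MvPolynomial (Option (Fin d)) ℝ)
    (ω β : ι → Vec d) : Prop :=
  ∀ i v, ‖v‖ ≤ 1 → ‖v - ω i‖ ≤ σ / (3 * N) →
    ∃ a : Vec d, (∀ j, value (P j) v (a j) = 0) ∧ ∀ j, |β i j - N ^ 2 * a j| ≤ K * N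

/-- The bound for the number of zeros of a system of degree `k`. -/
def mult (d k : ℕ) : ℕ := ((1 + d * k) ^ d) ^ d

/-- A stable zero `a` of the system `Q (v, ·)`: for all small `ℓ` the equation `Q (v, z) = ℓ` has a
solution near `a`. -/
def StableZero {d : ℕ} (Q : Fin d → MvPolynomial (Fin d ⊕ Fin d) ℝ) (v a : Vec d) : Prop :=
  ∀ δ : ℝ, 0 < δ → ∃ ε : ℝ, 0 < ε ∧ ∀ ℓ : Vec d, ‖ℓ‖ < ε →
    ∃ z : Vec d, ‖a - z‖ ≤ δ ∧ system Q v z = ℓ

/-! ### Towers -/

/-- The positions `β i` follow the map `N² b` up to `K N`, on the ball of radius `σ/(2N)` around the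
cap centre `ω i` (intersected with the unit ball). -/
def Follows {d : ℕ} {ι : Type} (σ K N : ℝ) (b : Vec d → Vec d) (ω β : ι → Vec d) : Prop :=
  ∀ i v, ‖v‖ ≤ 1 → ‖v - ω i‖ ≤ σ / (2 * N) → ‖β i - N ^ 2 • b v‖ ≤ K * N

/-- Up to a null set, `B` is covered by countably many measurable sets on which `b` is Lipschitz. -/
def LipPieces {d : ℕ} (B : Set (Vec d)) (b : Vec d → Vec d) : Prop :=
  ∃ P : ℕ → Set (Vec d), (∀ k, MeasurableSet (P k)) ∧ volume (B \ ⋃ k, P k) = 0 ∧
    ∀ k, ∃ C : ℝ≥0, LipschitzOnWith C b (P k)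

/-- For almost every height `t`, almost every point of height `t` lies on at most `M` of the lines
with direction in `B`. -/
def OverlapLE {d : ℕ} (M : ℕ) (B : Set (Vec d)) (b : Vec d → Vec d) : Prop :=
  ∀ᵐ t : ℝ, ∀ᵐ y : Vec d, {v | v ∈ B ∧ b v + t • v = y}.encard ≤ M

/-- For almost every height `t` the section map `v ↦ b v + t v` becomes monotone on `B` after
composition with an invertible linear map `K` (which may depend on `t`). -/
def SectionMonotone {d : ℕ} (B : Set (Vec d)) (b : Vec d → Vec d) : Prop :=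
  ∀ᵐ t : ℝ, ∃ K : Vec d →L[ℝ] Vec d, K.det ≠ 0 ∧
    ∀ v ∈ B, ∀ w ∈ B, 0 ≤ inner ℝ (K ((b v + t • v) - (b w + t • w))) (v - w)

/-- The stages: arbitrary families of lines in the plane; families with at most `M` lines through
almost every point, given by a map that is Lipschitz on countably many pieces; section-monotone
families; algebraic choices (the coordinates of `b v` are zeros of polynomials `P j (v, ·)`, no
regularity); stable zeros of polynomial systems. -/
inductive Stage : (d : ℕ) → ℝ≥0 → Set (Vec d) → (Vec d → Vec d) → Prop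
  | planar {B : Set (Vec 1)} {b : Vec 1 → Vec 1} : Stage 1 1 B b
  | overlap {d M : ℕ} {B : Set (Vec d)} {b : Vec d → Vec d} (hM : 1 ≤ M)
      (hL : LipPieces B b) (hO : OverlapLE M B b) : Stage d M B b
  | monotone {d : ℕ} {B : Set (Vec d)} {b : Vec d → Vec d} (hS : SectionMonotone B b) :
      Stage d 1 B b
  | algebraic {d k : ℕ} {B : Set (Vec d)} {b : Vec d → Vec d} (hk : 1 ≤ k)
      (P : Fin d → MvPolynomial (Option (Fin d)) ℝ) (hP : ∀ i, P i ≠ 0 ∧ (P i).totalDegree ≤ k)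
      (h : ∀ᵐ v : Vec d, v ∈ B → ∀ i, value (P i) v (b v i) = 0) :
      Stage d (((k + 1) ^ d * mult d k : ℕ) : ℝ≥0) B b
  | congruence {d k : ℕ} {B : Set (Vec d)} {b : Vec d → Vec d} (hk : 1 ≤ k)
      (Q : Fin d → MvPolynomial (Fin d ⊕ Fin d) ℝ) (hQ : ∀ i, (Q i).totalDegree ≤ k)
      (h : ∀ᵐ v : Vec d, v ∈ B → StableZero Q v (b v)) : Stage d (mult d k : ℝ≥0) B b

/-- The two components of the vector `v` in the orthogonal splitting `Φ`. -/
noncomputable def split {d d1 d2 : ℕ} (Φ : Vec d ≃ₗᵢ[ℝ] WithLp 2 (Vec d1 × Vec d2)) (v : Vec d) :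
    Vec d1 × Vec d2 := WithLp.ofLp (Φ v)

/-- The family `b` on `B` is the skew product of the family `b1` on `B1` and of the families `b2 v` on
`B2 v`, `v ∈ B1`, for the orthogonal splitting `Φ` of `ℝ^d`; all the data are measurable. -/
def IsSkew {d d1 d2 : ℕ} (Φ : Vec d ≃ₗᵢ[ℝ] WithLp 2 (Vec d1 × Vec d2)) (B : Set (Vec d))
    (B1 : Set (Vec d1)) (B2 : Vec d1 → Set (Vec d2)) (b : Vec d → Vec d) (b1 : Vec d1 → Vec d1)
    (b2 : Vec d1 → Vec d2 → Vec d2) : Prop :=
  MeasurableSet {z : Vec d1 × Vec d2 | z.1 ∈ B1 ∧ z.2 ∈ B2 z.1} ∧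
    Measurable (Function.uncurry b2) ∧ MeasurableSet B ∧ B ⊆ closedBall 0 1 ∧ Measurable b ∧
    ∀ v ∈ B, (split Φ v).1 ∈ B1 ∧ (split Φ v).2 ∈ B2 (split Φ v).1 ∧
      split Φ (b v) = (b1 (split Φ v).1, b2 (split Φ v).1 (split Φ v).2)

/-- Towers; `M` is the multiplicity and `B` the set of directions. -/
inductive Tower : (d : ℕ) → ℝ≥0 → Set (Vec d) → (Vec d → Vec d) → Prop
  | stage {d : ℕ} {M : ℝ≥0} {B : Set (Vec d)} {b : Vec d → Vec d} (hd : 1 ≤ d)
      (hB : MeasurableSet B) (hB1 : B ⊆ closedBall 0 1) (hb : Measurable b) (h : Stage d M B b) :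
      Tower d M B b
  | pieces {d : ℕ} {M : ℝ≥0} {b : Vec d → Vec d} (m : ℕ → ℝ≥0) (B : ℕ → Set (Vec d))
      (h : ∀ j, Tower d (m j) (B j) b) (hM : ∑' j, (m j : ℝ≥0∞) ≤ M) : Tower d M (⋃ j, B j) b
  | skew {d d1 d2 : ℕ} {M1 M2 : ℝ≥0} {B : Set (Vec d)} {B1 : Set (Vec d1)}
      {B2 : Vec d1 → Set (Vec d2)} {b : Vec d → Vec d} {b1 : Vec d1 → Vec d1}
      {b2 : Vec d1 → Vec d2 → Vec d2} (Φ : Vec d ≃ₗᵢ[ℝ] WithLp 2 (Vec d1 × Vec d2))
      (hd1 : 1 ≤ d1) (hd2 : 1 ≤ d2) (hM2 : 0 < M2)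
      (h1 : Tower d1 M1 B1 b1) (h2 : ∀ v ∈ B1, Tower d2 M2 (B2 v) (b2 v))
      (hs : IsSkew Φ B B1 B2 b b1 b2) : Tower d (M1 * M2) B b

open Pool.Agent.TH426.Kt (KTower RegBase BaseBd Rough win)
open Pool.Agent.R250.AC (RAB AlgB)

theorem stage_rab {d : ℕ} {M : ℝ≥0} {B : Set (Vec d)} {b : Vec d → Vec d} (hd : 1 ≤ d)
    (hB : MeasurableSet B) (hB1 : B ⊆ closedBall 0 1) (hb : Measurable b) (h : Stage d M B b) :
    RAB d (d + 1) M B b := by
  cases h with
  | planar => exact Or.inl (Rough.planar hB hB1 hb)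
  | overlap hM hL hO =>
    refine Or.inl (Rough.overlap hd hM hB hB1 hb hL ?_)
    filter_upwards [hO] with t ht _ using ht
  | monotone hS =>
    refine Or.inl (Rough.monotone hd hB hB1 hb ?_)
    filter_upwards [hS] with t ht _ using ht
  | algebraic hk P hP h => exact Or.inr (AlgB.alg hd hB hB1 hb hk P hP h)
  | congruence hk Q hQ h => exact Or.inr (AlgB.cong hd hB hB1 hb hk Q hQ h)

theorem toK {d : ℕ} {M : ℝ≥0} {B : Set (Vec d)} {b : Vec d → Vec d} (h : Tower d M B b) :
    KTower RAB d (d + 1) M B b := by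
  induction h with
  | stage hd hB hB1 hb h => exact KTower.base (stage_rab hd hB hB1 hb h)
  | pieces m B h hM ih => exact KTower.union m B ih hM
  | @skew d d1 d2 M1 M2 B B1 B2 b b1 b2 Φ hd1 hd2 hM2 h1 h2 hs ih1 ih2 =>
    obtain ⟨hB2, hb2, hB, hB1, hb, hbB⟩ := hs
    have hd : (d : ℝ) = d1 + d2 := by
      have := Pool.Agent.TH426.Kt.dim_eq Φ
      exact_mod_cast this
    have e : (d : ℝ) + 1 = (d1 + 1) + (d2 + 1) - 1 := by rw [hd]; ring
    rw [e]
    exact KTower.skew Φ hd1 hd2 hM2 ih1 ih2 hB2 hb2 hB hB1 hb hbB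

theorem compare (d : ℕ) (hd : 1 ≤ d) (σ κ : ℝ) (hσ : 0 < σ) (hσ1 : σ ≤ 1) (hκ : 0 < κ) :
    ∃ C : ℝ, 0 < C ∧ ∀ (M K S : ℝ≥0) (B : Set (Vec d)) (b : Vec d → Vec d),
      KTower RAB d (d + 1) M B b → volume (closedBall (0 : Vec d) 1 \ B) = 0 →
      ∀ N : ℝ, 1 ≤ N → ∀ (ι : Type) [Fintype ι] (ω β : ι → Vec d) (s : ι → ℝ)
        (f : ι → Fin d → Space d), Caps σ κ N ω f → (∀ i, |s i| ≤ S * N ^ 2) → Follows σ K N b ω β →
        Comparison C ((1 + M) * (1 + K + S) ^ (d + 2) * (1 + Real.log N)) N ω f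
          (fun i => centre (ω i) (β i) (s i)) := by
  have hlog : ∀ N : ℝ, 1 ≤ N → 0 ≤ Real.log N := fun N hN => Real.log_nonneg hN
  have hlog4 : 0 < Real.log 4 := Real.log_pos (by norm_num)
  have hlt : ∀ N : ℝ, 1 ≤ N → 0 < 1 / (4 * N) ∧ 1 / (4 * N) < 1 := by
    intro N hN
    refine ⟨by positivity, ?_⟩
    rw [div_lt_one (by positivity)]; linarith
  obtain ⟨C, hC, h⟩ := Pool.Agent.TH426.Kt.tower_compare d hd σ κ hσ hσ1 hκ
    Pool.Agent.R250.AC.rab_reg Pool.Agent.R250.AC.c4_ne_top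
    (fun N => 1 + Real.log (4 * N)) (fun N => 1 + Real.log N) (1 + Real.log 4) (by positivity)
    (fun N hN => by
      have := Real.log_nonneg (show (1 : ℝ) ≤ 4 * N by linarith)
      positivity)
    (fun N hN => by linarith [hlog N hN])
    (fun N hN => by
      rw [Real.log_mul (by norm_num) (by linarith)]
      nlinarith [hlog N hN])
    (fun N hN k => by
      have e : ENNReal.ofReal (1 + Real.log (4 * N)) = Pool.Agent.TH426.Kt.Lg (1 / (4 * N)) := by
        unfold Pool.Agent.TH426.Kt.Lg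
        rw [one_div_one_div]
      rw [e]
      intro d' p' M' B' b' h'
      exact Pool.Agent.R250.AC.rab_bd (hlt N hN).1 (hlt N hN).2 k h')
  refine ⟨C, hC, ?_⟩
  intro M K S B b hT hB N hN ι _ ω β s f hcaps hs hfol p hp
  obtain ⟨hω, hsep, hcard, hf⟩ := hcaps
  exact h M K S B b hT hB N hN ι ω β s f hω hsep hcard hf hs hfol p hp

theorem bez_le (d k : ℕ) :
    (((k + 1 + 1) ^ d * mult d (k + 1) : ℕ) : ℝ) ≤
      ((2 ^ d * (1 + d) ^ (d * d) : ℕ) : ℝ) * ((k : ℝ) + 1) ^ (d * (d + 1)) := by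
  have h1 : (k + 1 + 1) ^ d * mult d (k + 1) ≤
      (2 ^ d * (1 + d) ^ (d * d)) * (k + 1) ^ (d * (d + 1)) := by
    unfold mult
    calc (k + 1 + 1) ^ d * ((1 + d * (k + 1)) ^ d) ^ d
        ≤ (2 * (k + 1)) ^ d * (((1 + d) * (k + 1)) ^ d) ^ d := by
          gcongr
          · omega
          · nlinarith
      _ = (2 ^ d * (1 + d) ^ (d * d)) * (k + 1) ^ (d * (d + 1)) := by
          rw [← pow_mul, mul_pow, mul_pow]
          ring
  exact_mod_cast h1

/-- **The Kakeya inequality in tube form for algebraic choices of the translates.** -/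
theorem result (d : ℕ) (hd : 1 ≤ d) (σ κ : ℝ) (hσ : 0 < σ) (hσ1 : σ ≤ 1) (hκ : 0 < κ) :
    ∃ C : ℝ, 0 < C ∧
    -- 1. algebraic choices
    (∀ (k : ℕ) (K S : ℝ≥0) (P : Fin d → MvPolynomial (Option (Fin d)) ℝ),
      (∀ i, P i ≠ 0 ∧ (P i).totalDegree ≤ k) → ∀ N : ℝ, 1 ≤ N → ∀ (ι : Type) [Fintype ι]
        (ω β : ι → Vec d) (s : ι → ℝ) (f : ι → Fin d → Space d), Caps σ κ N ω f →
        (∀ i, |s i| ≤ S * N ^ 2) → AlgebraicPositions σ K N P ω β →
        Comparison C (((k : ℝ) + 1) ^ (d * (d + 1)) * (1 + K + S) ^ (d + 2) * (1 + Real.log N)) N ω f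
          (fun i => centre (ω i) (β i) (s i))) ∧
    -- 2. towers
    (∀ (M K S : ℝ≥0) (B : Set (Vec d)) (b : Vec d → Vec d),
      Tower d M B b → volume (closedBall (0 : Vec d) 1 \ B) = 0 →
      ∀ N : ℝ, 1 ≤ N → ∀ (ι : Type) [Fintype ι] (ω β : ι → Vec d) (s : ι → ℝ)
        (f : ι → Fin d → Space d), Caps σ κ N ω f → (∀ i, |s i| ≤ S * N ^ 2) → Follows σ K N b ω β →
        Comparison C ((1 + M) * (1 + K + S) ^ (d + 2) * (1 + Real.log N)) N ω f
          (fun i => centre (ω i) (β i) (s i))) ∧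
    -- regular zeros are stable
    (∀ (Q : Fin d → MvPolynomial (Fin d ⊕ Fin d) ℝ) (v a : Vec d), system Q v a = 0 →
      (fderiv ℝ (system Q v) a).det ≠ 0 → StableZero Q v a) := by
  obtain ⟨C1, hC1, h1⟩ := compare d hd σ κ hσ hσ1 hκ
  obtain ⟨C2, hC2, h2⟩ := compare d hd (2 / 3 * σ) κ (by positivity) (by linarith) hκ
  have hdR : (1 : ℝ) ≤ d := by exact_mod_cast hd
  set D : ℝ := (1 + ((2 ^ d * (1 + d) ^ (d * d) : ℕ) : ℝ)) * (d : ℝ) ^ (d + 2) with hD
  have hD0 : (1 : ℝ) ≤ D := by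
    have h3 : (1 : ℝ) ≤ (d : ℝ) ^ (d + 2) := one_le_pow₀ hdR
    have h4 : (0 : ℝ) ≤ ((2 ^ d * (1 + d) ^ (d * d) : ℕ) : ℝ) := Nat.cast_nonneg _
    rw [hD]
    nlinarith
  refine ⟨C1 + C2 * D, by positivity, ?_, ?_, ?_⟩
  · intro k K S P hP N hN ι _ ω β s f hcaps hs hpos p hp
    obtain ⟨hω, hsep, hcard, hf⟩ := hcaps
    have hN0 : 0 < N := by linarith
    have hK0 : (0 : ℝ) ≤ K := K.2
    have hS0 : (0 : ℝ) ≤ S := S.2
    have hlN := Real.log_nonneg hN
    obtain ⟨b, hbm, hb0, hbf⟩ := Pool.Agent.R250.AC.exists_map hN hK0 hσ hsep (P := P) hpos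
    set M : ℝ≥0 := (((k + 1 + 1) ^ d * mult d (k + 1) : ℕ) : ℝ≥0) with hM
    have hT : KTower RAB d (d + 1) M (closedBall (0 : Vec d) 1) b := by
      refine KTower.base (Or.inr (AlgB.alg hd measurableSet_closedBall subset_rfl hbm
        (Nat.le_add_left 1 k) (fun j => Pool.Agent.R250.AC.mulS (P j))
        (fun j => ⟨Pool.Agent.R250.AC.mulS_ne (hP j).1, Pool.Agent.R250.AC.mulS_deg (hP j).2⟩) ?_))
      refine Filter.Eventually.of_forall fun v hv j => hb0 v ?_ j
      rwa [mem_closedBall, dist_zero_right] at hv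
    have hcaps' : Caps (2 / 3 * σ) κ N ω f := by
      refine ⟨hω, fun i j hij => le_trans ?_ (hsep i j hij), hcard, hf⟩
      gcongr
      linarith
    have hfol : Follows (2 / 3 * σ) ((d * K : ℝ≥0) : ℝ) N b ω β := by
      intro i v hv hvi
      have h3 := hbf i v hv (hvi.trans (le_of_eq (by field_simp)))
      push_cast
      exact h3
    have h3 := h2 M (d * K) S (closedBall 0 1) b hT (by simp) N hN ι ω β s f hcaps' hs hfol p hp
    refine h3.trans ?_
    gcongr ENNReal.ofReal ?_ * _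
    have hth0 : 0 ≤ min ((d : ℝ) * (1 - 1 / p.toReal)) (1 / p.toReal) := by
      apply le_min
      · apply mul_nonneg (by positivity)
        rcases eq_or_ne p ∞ with h4 | h4
        · rw [h4]; simp
        · have h5 : 1 ≤ p.toReal := by
            rw [← ENNReal.toReal_one]
            exact ENNReal.toReal_mono h4 hp
          have : 1 / p.toReal ≤ 1 := by
            rw [div_le_one (by linarith)]; exact h5
          linarith
      · positivity
    have hth1 : min ((d : ℝ) * (1 - 1 / p.toReal)) (1 / p.toReal) ≤ 1 := by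
      refine (min_le_right _ _).trans ?_
      rcases eq_or_ne p ∞ with h4 | h4
      · rw [h4]; simp
      · have h5 : 1 ≤ p.toReal := by
          rw [← ENNReal.toReal_one]
          exact ENNReal.toReal_mono h4 hp
        rw [div_le_one (by linarith)]; exact h5
    set θ := min ((d : ℝ) * (1 - 1 / p.toReal)) (1 / p.toReal) with hθ
    set X : ℝ := ((k : ℝ) + 1) ^ (d * (d + 1)) * (1 + K + S) ^ (d + 2) * (1 + Real.log N) with hX
    have hX0 : 0 < X := by positivity
    have hXX : (1 + (M : ℝ)) * (1 + ((d * K : ℝ≥0) : ℝ) + S) ^ (d + 2) * (1 + Real.log N) ≤ D * X := by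
      have h4 : (1 : ℝ) + M ≤ (1 + ((2 ^ d * (1 + d) ^ (d * d) : ℕ) : ℝ)) *
          ((k : ℝ) + 1) ^ (d * (d + 1)) := by
        have h5 := bez_le d k
        have h6 : (1 : ℝ) ≤ ((k : ℝ) + 1) ^ (d * (d + 1)) := one_le_pow₀ (by
          have : (0 : ℝ) ≤ k := Nat.cast_nonneg k
          linarith)
        have h7 : (M : ℝ) = (((k + 1 + 1) ^ d * mult d (k + 1) : ℕ) : ℝ) := by
          rw [hM]; exact NNReal.coe_natCast _
        rw [h7, add_mul, one_mul]
        exact add_le_add h6 h5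
      have h8 : (1 + ((d * K : ℝ≥0) : ℝ) + S) ^ (d + 2) ≤ (d : ℝ) ^ (d + 2) * (1 + K + S) ^ (d + 2) := by
        rw [← mul_pow]
        apply pow_le_pow_left₀ (by positivity)
        push_cast
        nlinarith
      calc (1 + (M : ℝ)) * (1 + ((d * K : ℝ≥0) : ℝ) + S) ^ (d + 2) * (1 + Real.log N)
          ≤ ((1 + ((2 ^ d * (1 + d) ^ (d * d) : ℕ) : ℝ)) * ((k : ℝ) + 1) ^ (d * (d + 1))) *
            ((d : ℝ) ^ (d + 2) * (1 + K + S) ^ (d + 2)) * (1 + Real.log N) := by gcongr
        _ = D * X := by rw [hD, hX]; ring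
    calc C2 * ((1 + (M : ℝ)) * (1 + ((d * K : ℝ≥0) : ℝ) + S) ^ (d + 2) * (1 + Real.log N)) ^ θ
        ≤ C2 * (D * X) ^ θ := by gcongr
      _ = C2 * (D ^ θ * X ^ θ) := by rw [Real.mul_rpow (by linarith) hX0.le]
      _ ≤ C2 * (D * X ^ θ) := by
          gcongr
          calc D ^ θ ≤ D ^ (1 : ℝ) := Real.rpow_le_rpow_of_exponent_le hD0 hth1
            _ = D := Real.rpow_one D
      _ ≤ (C1 + C2 * D) * X ^ θ := by
          have : 0 ≤ C1 * X ^ θ := by positivity
          nlinarith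
  · intro M K S B b hT hB N hN ι _ ω β s f hcaps hs hfol p hp
    refine (h1 M K S B b (toK hT) hB N hN ι ω β s f hcaps hs hfol p hp).trans ?_
    have hlN := Real.log_nonneg hN
    have hM0 : (0 : ℝ) ≤ M := M.2
    have hK0 : (0 : ℝ) ≤ K := K.2
    have hS0 : (0 : ℝ) ≤ S := S.2
    gcongr ENNReal.ofReal (?_ * _) * _
    have : 0 ≤ C2 * D := by positivity
    linarith
  · intro Q v a h0 hdet δ hδ
    exact Pool.Agent.R250.AC.stable_of_regular (z₀ := a) (by simpa using hδ) h0 hdet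

end Pool.Agent.Results.MP_ac5134_an.AlgebraicTranslates
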