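import Pool.Agent.R251.End.Boxes
import Pool.Agent.R251.End.Cmp

set_option autoImplicit false

/-!
# MP_ac5134: the endpoint `p = n/(n-1)` without loss, and the sharp power of the logarithm below it,
for reducible translates

Work in `ℝ^n = ℝ^d × ℝ`, `n = d + 1`, with its Euclidean norm (`Space d`), and let `P` be the
paraboloid `{(ω, |ω|²)}`, `|ω| ≤ 1`.  The box dual to the cap at `ω` is `box N (nor ω) f 0`: its long
side `N²` is in the direction of the unit normal `nor ω = (-2ω, 1)/√(1+4|ω|²)` and its other sides `N`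
are in the directions of an arbitrary orthonormal frame `f` of the orthogonal complement.  Every
translate of the box at `ω` can be given by the point `(β, 0)` where its axis meets the hyperplane of
height `0` and by the height `s` of its centre.

All families of translates in the plane are *reducible*.  In higher dimensions a family is reducible if
in some orthonormal basis of `ℝ^d` the first coordinates of any two of the points `β` agree up to `K N`
as soon as the first coordinates of the centres `ω` of the caps agree up to `σ/N`, and if the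
subfamilies for which the first coordinate of `ω` lies in an interval `[c σ/N, (c + 1) σ/N)`, `c ∈ ℤ`,
are, after forgetting the first coordinate, reducible families in one dimension less (with bases of
`ℝ^(d-1)` which may depend on `c`).

For the compressions of Besicovitch the inequality fails without a power of `log N` for every
`p < n/(n-1)`.  For reducible translates with heights at most `S N²` we prove the comparison with the
centred family
1. for the critical exponent `p = n/(n-1)` with a constant which does not depend on `N`;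
2. for all `p` in `[1, n/(n-1))` with the constant `C (1 + log N)^((n-1)(1-1/p))`, with one `C` for all
   `p`; the power of the logarithm is attained (theorem `NecessaryLosses`).
-/

open MeasureTheory Set Filter Topology ENNReal NNReal Metric

namespace Pool.Agent.Results.MP_ac5134_an.EndpointReducible

/-- Euclidean space `ℝ^d`. -/
abbrev Vec (d : ℕ) : Type := EuclideanSpace ℝ (Fin d)

/-- Euclidean space `ℝ^{d+1}`, written as `ℝ^d × ℝ` with the Euclidean norm. -/
abbrev Space (d : ℕ) : Type := WithLp 2 (Vec d × ℝ)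

/-- The unit normal `(-2ω, 1)/√(1+4|ω|²)` of the paraboloid at the point over `ω`. -/
noncomputable def nor {d : ℕ} (ω : Vec d) : Space d :=
  (√(1 + ‖-(2 : ℝ) • ω‖ ^ 2))⁻¹ • WithLp.toLp 2 (-(2 : ℝ) • ω, (1:ℝ))

/-- The box with centre `a`, with one side of length `N²` in the direction `e` and with sides of length
`N` in the directions `f j`. -/
def box {d : ℕ} (N : ℝ) (e : Space d) (f : Fin d → Space d) (a : Space d) : Set (Space d) :=
  {y | |inner ℝ e (y - a)| ≤ N ^ 2 / 2 ∧ ∀ j, |inner ℝ (f j) (y - a)| ≤ N / 2}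

/-- The caps have centres `ω i` in the closed unit ball, `σ/N`-separated and at least `κ N^d` in
number, and `f i` is an orthonormal frame of the orthogonal complement of the normal at `ω i`. -/
def Caps {d : ℕ} {ι : Type} [Fintype ι] (σ κ N : ℝ) (ω : ι → Vec d) (f : ι → Fin d → Space d) : Prop :=
  (∀ i, ‖ω i‖ ≤ 1) ∧ (∀ i j, i ≠ j → σ / N ≤ ‖ω i - ω j‖) ∧ κ * N ^ d ≤ (Fintype.card ι : ℝ) ∧
    ∀ i, Orthonormal ℝ (Fin.cons (nor (ω i)) (f i) : Fin (d + 1) → Space d)

/-- The sum of the indicators of the boxes of the caps with centres `a i`. -/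
noncomputable def boxSum {d : ℕ} {ι : Type} [Fintype ι] (N : ℝ) (ω : ι → Vec d)
    (f : ι → Fin d → Space d) (a : ι → Space d) (y : Space d) : ℝ :=
  ∑ i, (box N (nor (ω i)) (f i) (a i)).indicator (fun _ => (1 : ℝ)) y

/-- Orthonormal coordinates of `ℝ^d`: a linear isometry of `ℝ^d` onto itself. -/
abbrev Iso (d : ℕ) : Type := Vec d ≃ₗᵢ[ℝ] Vec d

/-- The `j`-th coordinate of `x` in the orthonormal coordinates given by `U`. -/
noncomputable def coord {d : ℕ} (U : Iso d) (x : Vec d) (j : Fin d) : ℝ := U x j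

/-- The vector of the coordinates of `x`, in the orthonormal coordinates given by `U`, without the
first one (number `0`). -/
noncomputable def rest {d : ℕ} (U : Iso (d + 1)) (x : Vec (d + 1)) : Vec d :=
  WithLp.toLp 2 (fun j => coord U x j.succ)

/-- The indices `i` in `J` such that the first coordinate of `ω i`, in the coordinates given by `U`, is
in the interval `[c δ, (c + 1) δ)`. -/
def layer (δ : ℝ) {ι : Type} {d : ℕ} (U : Iso (d + 1)) (J : Set ι) (ω : ι → Vec (d + 1)) (c : ℤ) :
    Set ι :=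
  {i | i ∈ J ∧ c * δ ≤ coord U (ω i) 0 ∧ coord U (ω i) 0 < (c + 1) * δ}

/-- The family with the cap centres `ω i` and the positions `β i`, `i ∈ J`, is reducible, with the
scale `δ` for the cap centres and the scale `ρ` for the positions. -/
inductive Reducible (δ ρ : ℝ) {ι : Type} : (d : ℕ) → Set ι → (ι → Vec d) → (ι → Vec d) → Prop
  | planar (d : ℕ) (J : Set ι) (ω β : ι → Vec d) (hd : d ≤ 1) : Reducible δ ρ d J ω β
  | split (d : ℕ) (J : Set ι) (ω β : ι → Vec (d + 1)) (U : Iso (d + 1))
      (h1 : ∀ i ∈ J, ∀ i' ∈ J, |coord U (ω i) 0 - coord U (ω i') 0| ≤ δ →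
        |coord U (β i) 0 - coord U (β i') 0| ≤ ρ)
      (h2 : ∀ c : ℤ, Reducible δ ρ d (layer δ U J ω c) (fun i => rest U (ω i))
        (fun i => rest U (β i))) : Reducible δ ρ (d + 1) J ω β

/-- The positions `β i` are triangular in the orthonormal coordinates given by `U`: if the first `j`
coordinates of two cap centres agree up to `δ`, then the `j`-th coordinates of the two positions agree
up to `ρ`, for all `j` but the last. -/
def Triangular (δ ρ : ℝ) {d : ℕ} {ι : Type} (U : Iso d) (ω β : ι → Vec d) : Prop :=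
  ∀ (i i' : ι) (j : Fin d), (j : ℕ) + 1 < d →
    (∀ l, l ≤ j → |coord U (ω i) l - coord U (ω i') l| ≤ δ) →
    |coord U (β i) j - coord U (β i') j| ≤ ρ

theorem Reducible.of_forall {δ ρ : ℝ} {ι : Type} : ∀ (d : ℕ) (J : Set ι) (v β : ι → Vec d),
    (∀ i ∈ J, ∀ i' ∈ J, ∀ j : Fin d, (j : ℕ) + 1 < d → (∀ l, l ≤ j → |v i l - v i' l| ≤ δ) →
      |β i j - β i' j| ≤ ρ) → Reducible δ ρ d J v β
  | 0, _, _, _, _ => Reducible.planar _ _ _ _ (by omega)
  | 1, _, _, _, _ => Reducible.planar _ _ _ _ (by omega)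
  | d + 2, J, v, β, h => by
    refine Reducible.split _ _ _ _ (LinearIsometryEquiv.refl ℝ _) ?_ ?_
    · intro i hi i' hi' h0
      apply h i hi i' hi' 0 (by simp)
      intro l hl
      have : l = 0 := le_antisymm hl (Fin.zero_le _)
      rw [this]
      exact h0
    · intro c
      apply Reducible.of_forall (d + 1)
      intro i hi i' hi' j hjd hj
      obtain ⟨hiJ, h1, h2⟩ := hi
      obtain ⟨hiJ', h3, h4⟩ := hi'
      apply h i hiJ i' hiJ' j.succ (by rw [Fin.val_succ]; omega)
      intro l hl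
      refine Fin.cases ?_ (fun l => ?_) l hl
      · intro _
        have e1 : coord (LinearIsometryEquiv.refl ℝ (Vec (d + 2))) (v i) 0 = v i 0 := rfl
        have e2 : coord (LinearIsometryEquiv.refl ℝ (Vec (d + 2))) (v i') 0 = v i' 0 := rfl
        rw [e1] at h1 h2
        rw [e2] at h3 h4
        rw [abs_le]
        constructor <;> linarith
      · intro hl'
        exact hj l (Fin.succ_le_succ_iff.1 hl')

/-- Triangular families are reducible. -/
theorem Triangular.reducible {δ ρ : ℝ} {d : ℕ} {ι : Type} {U : Iso d}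
    {v β : ι → Vec d} (h : Triangular δ ρ U v β) : Reducible δ ρ d univ v β := by
  match d with
  | 0 => exact Reducible.planar _ _ _ _ (by omega)
  | 1 => exact Reducible.planar _ _ _ _ (by omega)
  | d + 2 =>
    refine Reducible.split _ _ _ _ U ?_ ?_
    · intro i _ i' _ h0
      apply h i i' 0 (by simp)
      intro l hl
      have : l = 0 := le_antisymm hl (Fin.zero_le _)
      rw [this]
      exact h0
    · intro c
      apply Reducible.of_forall (d + 1)
      intro i hi i' hi' j hjd hj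
      obtain ⟨-, h1, h2⟩ := hi
      obtain ⟨-, h3, h4⟩ := hi'
      apply h i i' j.succ (by rw [Fin.val_succ]; omega)
      intro l hl
      refine Fin.cases ?_ (fun l => ?_) l hl
      · intro _
        rw [abs_le]
        constructor <;> linarith
      · intro hl'
        exact hj l (Fin.succ_le_succ_iff.1 hl')

theorem Reducible.toRed {K δ N : ℝ} (hδ : 0 < δ) (hN : 0 < N) {ι : Type} :
    ∀ (d : ℕ) (J : Finset ι) (v β : ι → Vec d), Reducible δ (K * N) d (J : Set ι) v β →
    Pool.Agent.R134.Kak.Red K d J (fun i => δ⁻¹ • v i) (fun i => N⁻¹ • β i)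
  | 0, _, _, _, _ => trivial
  | 1, _, _, _, _ => trivial
  | d + 2, J, v, β, h => by
    classical
    obtain ⟨U, h1, h2⟩ : ∃ U : Vec (d + 2) ≃ₗᵢ[ℝ] Vec (d + 2),
        (∀ i ∈ (J : Set ι), ∀ i' ∈ (J : Set ι), |U (v i) 0 - U (v i') 0| ≤ δ →
          |U (β i) 0 - U (β i') 0| ≤ K * N) ∧
        ∀ c : ℤ, Reducible δ (K * N) (d + 1) (layer δ U J v c) (fun i => rest U (v i))
          (fun i => rest U (β i)) := by
      cases h with
      | planar _ _ _ _ hd => omega
      | split _ _ _ _ U h1 h2 => exact ⟨U, h1, h2⟩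
    have hδ' : 0 < δ⁻¹ := inv_pos.2 hδ
    have hN' : 0 < N⁻¹ := inv_pos.2 hN
    have hsc : ∀ (a : ℝ) (x : Vec (d + 2)), U (a • x) 0 = a * U x 0 := by
      intro a x
      rw [map_smul]
      rfl
    refine ⟨U, ?_, ?_⟩
    · intro i hi i' hi' h0
      rw [hsc, hsc, ← mul_sub, abs_mul, abs_of_pos hδ'] at h0
      rw [hsc, hsc, ← mul_sub, abs_mul, abs_of_pos hN']
      have h3 := h1 i (Finset.mem_coe.2 hi) i' (Finset.mem_coe.2 hi') (by
        rw [inv_mul_le_iff₀ hδ] at h0
        linarith)
      rw [inv_mul_le_iff₀ hN]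
      linarith
    · intro c
      have h3 := h2 c
      have e : layer δ U (J : Set ι) v c =
          ((J.filter (fun i => ⌊U (δ⁻¹ • v i) 0⌋ = c) : Finset ι) : Set ι) := by
        ext i
        show i ∈ (J : Set ι) ∧ c * δ ≤ U (v i) 0 ∧ U (v i) 0 < (c + 1) * δ ↔ _
        rw [Finset.mem_coe, Finset.mem_coe, Finset.mem_filter, hsc, Int.floor_eq_iff,
          inv_mul_eq_div, le_div_iff₀ hδ, div_lt_iff₀ hδ]
      rw [e] at h3
      have ht : ∀ (a : ℝ) (w : ι → Vec (d + 2)), (fun i => Pool.Agent.R134.Kak.tl (U (a • w i))) =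
          fun i => a • rest U (w i) := by
        intro a w
        funext i
        rw [map_smul]
        rfl
      show Pool.Agent.R134.Kak.Red K (d + 1) (J.filter (fun i => ⌊U (δ⁻¹ • v i) 0⌋ = c))
        (fun i => Pool.Agent.R134.Kak.tl (U (δ⁻¹ • v i))) (fun i => Pool.Agent.R134.Kak.tl (U (N⁻¹ • β i)))
      rw [ht δ⁻¹ v, ht N⁻¹ β]
      exact Reducible.toRed hδ hN (d + 1) _ _ _ h3

/-- The family: caps with `Caps σ κ N ω f`, heights `s i` of the centres of the translates at most
`S N²` and reducible positions `β i`, with the constant `K`. -/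
def Family {d : ℕ} {ι : Type} [Fintype ι] (σ κ K S N : ℝ) (ω β : ι → Vec d) (s : ι → ℝ)
    (f : ι → Fin d → Space d) : Prop :=
  Caps σ κ N ω f ∧ (∀ i, |s i| ≤ S * N ^ 2) ∧ Reducible (σ / N) (K * N) d univ ω β

/-- The centre, at the height `s`, of the translate of the box at `ω` with the position `β`. -/
def centre {d : ℕ} (ω β : Vec d) (s : ℝ) : Space d := WithLp.toLp 2 (β + s • (-(2 : ℝ) • ω), s)

/-- The comparison of the `L^p` norms with the constant `C`. -/
def Ineq {d : ℕ} {ι : Type} [Fintype ι] (p : ℝ≥0∞) (C N : ℝ) (ω β : ι → Vec d) (s : ι → ℝ)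
    (f : ι → Fin d → Space d) : Prop :=
  eLpNorm (boxSum N ω f (fun i => centre (ω i) (β i) (s i))) p volume ≤
    ENNReal.ofReal C * eLpNorm (boxSum N ω f 0) p volume

theorem main (e : ℕ) (σ κ : ℝ) (hσ : 0 < σ) (hσ1 : σ ≤ 1) (hκ : 0 < κ) (K S : ℝ≥0) :
    ∃ C : ℝ, 0 < C ∧ ∀ N : ℝ, 1 ≤ N → ∀ (ι : Type) [Fintype ι]
      (ω β : ι → Vec (e + 1)) (s : ι → ℝ) (f : ι → Fin (e + 1) → Space (e + 1)),
      Family σ κ K S N ω β s f →
        Ineq (ENNReal.ofReal (1 + 1 / ((e + 1 : ℕ) : ℝ))) C N ω β s f ∧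
        ∀ p : ℝ, 1 ≤ p → p ≤ 1 + 1 / ((e + 1 : ℕ) : ℝ) →
          Ineq (ENNReal.ofReal p) (C * (1 + Real.log N) ^ (((e + 1 : ℕ) : ℝ) * (1 - 1 / p))) N ω β s f := by
  have hdc : (((e + 1 : ℕ) : ℝ)) = (e : ℝ) + 1 := by push_cast; rfl
  obtain ⟨E, hE0, hE⟩ := Pool.Agent.R251.End.box_crit e hσ hσ1 K S
  obtain ⟨C₁, hC₁, h1⟩ := Pool.Agent.R251.End.endpoint (d := e + 1) (by omega) hκ hE0
  obtain ⟨C₂, hC₂, h2⟩ := Pool.Agent.R251.End.below (d := e + 1) (by omega) hκ hE0
  have hC₂0 : 0 < C₂ := by linarith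
  refine ⟨C₁ + C₂, by positivity, ?_⟩
  intro N hN ι _ ω β s f ⟨⟨hω, hsep, hcard, hf⟩, hs, hR⟩
  have hN0 : 0 < N := by linarith
  have hc0 : (0 : ℝ) < (Fintype.card ι : ℝ) := lt_of_lt_of_le (by positivity) hcard
  have hne : Nonempty ι := by
    rw [← Fintype.card_pos_iff]
    exact_mod_cast hc0
  have hRed : Pool.Agent.R134.Kak.Red K (e + 1) Finset.univ (fun i => (N / σ) • ω i) (fun i => N⁻¹ • β i) := by
    have h1 := Reducible.toRed (δ := σ / N) (N := N) (K := K) (by positivity) hN0 (e + 1) Finset.univ ω β (by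
      rw [Finset.coe_univ]
      exact hR)
    rwa [inv_div] at h1
  have hQi := hE N hN ι ω β s f hω hsep hf hs hRed
  rw [← hdc] at hQi
  have hlog : 0 ≤ Real.log N := Real.log_nonneg hN
  constructor
  · refine (h1 ι N hN ω f _ hcard hf hQi).trans ?_
    exact mul_le_mul' (ENNReal.ofReal_le_ofReal (by linarith)) le_rfl
  · intro p hp hpq
    refine (h2 ι N hN ω f _ hcard hf hQi p hp hpq).trans ?_
    refine mul_le_mul' (ENNReal.ofReal_le_ofReal ?_) le_rfl
    exact mul_le_mul_of_nonneg_right (by linarith) (by positivity)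

/-- **The comparison for reducible translates at and below the critical exponent `n/(n-1)`**: without
loss for `p = n/(n-1)`, with the constant `C (1 + log N)^((n-1)(1-1/p))` for `1 ≤ p < n/(n-1)`.  The
last part says that the theorem applies to triangular translates. -/
theorem result (d : ℕ) (hd : 1 ≤ d) (σ κ : ℝ) (hσ : 0 < σ) (hσ1 : σ ≤ 1) (hκ : 0 < κ) (K S : ℝ≥0) :
    (∃ C : ℝ, 0 < C ∧ ∀ N : ℝ, 1 ≤ N → ∀ (ι : Type) [Fintype ι]
      (ω β : ι → Vec d) (s : ι → ℝ) (f : ι → Fin d → Space d), Family σ κ K S N ω β s f →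
        Ineq (ENNReal.ofReal (((d : ℝ) + 1) / d)) C N ω β s f ∧
        ∀ p : ℝ, 1 ≤ p → p < ((d : ℝ) + 1) / d →
          Ineq (ENNReal.ofReal p) (C * (1 + Real.log N) ^ ((d : ℝ) * (1 - 1 / p))) N ω β s f) ∧
    ∀ (δ ρ : ℝ) (ι : Type) (ω β : ι → Vec d) (U : Iso d),
      Triangular δ ρ U ω β → Reducible δ ρ d univ ω β := by
  obtain ⟨e, rfl⟩ : ∃ e, d = e + 1 := ⟨d - 1, by omega⟩
  refine ⟨?_, fun δ ρ ι ω β U h => h.reducible⟩
  obtain ⟨C, hC, h⟩ := main e σ κ hσ hσ1 hκ K S
  have hq : (((e + 1 : ℕ) : ℝ) + 1) / ((e + 1 : ℕ) : ℝ) = 1 + 1 / ((e + 1 : ℕ) : ℝ) := by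
    have : (0 : ℝ) < ((e + 1 : ℕ) : ℝ) := by positivity
    field_simp
  rw [hq]
  refine ⟨C, hC, ?_⟩
  intro N hN ι _ ω β s f hF
  obtain ⟨h1, h2⟩ := h N hN ι ω β s f hF
  exact ⟨h1, fun p hp hpq => h2 p hp hpq.le⟩

end Pool.Agent.Results.MP_ac5134_an.EndpointReducible
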