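import Pool.Agent.R251.Nec.Low
import Pool.Agent.R251.Nec.Grid

set_option autoImplicit false

/-!
# MP_ac5134: logarithmic losses that are necessary in `ℝ^n`

Work in `ℝ^n = ℝ^d × ℝ`, `n = d + 1`, with its Euclidean norm (`Space d`), and let `P` be the
paraboloid `{(ω, |ω|²)}`, `|ω| ≤ 1`.  The box dual to the cap at `ω` is `box N (nor ω) f 0`: its long
side `N²` is in the direction of the unit normal `nor ω = (-2ω, 1)/√(1+4|ω|²)` and its other sides `N`
are in the directions of an arbitrary orthonormal frame `f` of the orthogonal complement.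

The product of Besicovitch's configuration with a cube is compressed by the factor `log N`.  We
construct one bounded function `g : ℝ → ℝ` such that for the translates by
`N² (g(ω_1), …, g(ω_d), 0)`, for all families of caps and all `N ≥ 2`,
1. the union of the boxes has volume at most `C (log N)^(-(n-1)) ∑ |T|`;
2. for every `p` in `[1, n/(n-1))` the `L^p` norm of the sum of the boxes is at least
   `c (log N)^((n-1)(1-1/p))` times the `L^p` norm of the sum of the centred boxes;
3. for the caps of a grid, which exist for all `N`, the translates are triangular in the sense of the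
   theorem `TriangularTranslates`, whose power of `log N` is therefore sharp in this range.
-/

open MeasureTheory Set ENNReal

namespace Pool.Agent.Results.MP_ac5134_an.NecessaryLosses

/-- Euclidean space `ℝ^d`. -/
abbrev Vec (d : ℕ) : Type := EuclideanSpace ℝ (Fin d)

/-- Euclidean space `ℝ^{d+1}`, written as `ℝ^d × ℝ` with the Euclidean norm. -/
abbrev Space (d : ℕ) : Type := WithLp 2 (Vec d × ℝ)

/-- The unit normal `(-2ω, 1)/√(1+4|ω|²)` of the paraboloid at the point over `ω`. -/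
noncomputable def nor {d : ℕ} (ω : Vec d) : Space d :=
  (√(1 + ‖-(2 : ℝ) • ω‖ ^ 2))⁻¹ • WithLp.toLp 2 (-(2 : ℝ) • ω, (1:ℝ))

/-- The box with centre `a`, with one side of length `N²` in the direction `e` and with sides of length
`N` in the directions `f j`. -/
def box {d : ℕ} (N : ℝ) (e : Space d) (f : Fin d → Space d) (a : Space d) : Set (Space d) :=
  {y | |inner ℝ e (y - a)| ≤ N ^ 2 / 2 ∧ ∀ j, |inner ℝ (f j) (y - a)| ≤ N / 2}

/-- The caps have centres `ω i` in the closed unit ball, `σ/N`-separated and at least `κ N^d` in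
number, and `f i` is an orthonormal frame of the orthogonal complement of the normal at `ω i`. -/
def Caps {d : ℕ} {ι : Type} [Fintype ι] (σ κ N : ℝ) (ω : ι → Vec d) (f : ι → Fin d → Space d) : Prop :=
  (∀ i, ‖ω i‖ ≤ 1) ∧ (∀ i j, i ≠ j → σ / N ≤ ‖ω i - ω j‖) ∧ κ * N ^ d ≤ (Fintype.card ι : ℝ) ∧
    ∀ i, Orthonormal ℝ (Fin.cons (nor (ω i)) (f i) : Fin (d + 1) → Space d)

/-- The sum of the indicators of the boxes of the caps with centres `a i`. -/
noncomputable def boxSum {d : ℕ} {ι : Type} [Fintype ι] (N : ℝ) (ω : ι → Vec d)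
    (f : ι → Fin d → Space d) (a : ι → Space d) (y : Space d) : ℝ :=
  ∑ i, (box N (nor (ω i)) (f i) (a i)).indicator (fun _ => (1 : ℝ)) y

/-- The vector `N² (g(ω_1), …, g(ω_d))`. -/
noncomputable def pos {d : ℕ} (g : ℝ → ℝ) (N : ℝ) (ω : Vec d) : Vec d :=
  WithLp.toLp 2 (fun j => N ^ 2 * g (ω j))

/-- The centre `N² (g(ω_1), …, g(ω_d), 0)` of the box at `ω`. -/
noncomputable def centre {d : ℕ} (g : ℝ → ℝ) (N : ℝ) (ω : Vec d) : Space d :=
  WithLp.toLp 2 (pos g N ω, (0:ℝ))

/-- The positions `β i` are triangular in the orthonormal coordinates given by `U`, up to `K N`: if the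
first `j` coordinates of two cap centres agree up to `σ/N`, then the `j`-th coordinates of the two
positions agree up to `K N`. -/
def Triangular {d : ℕ} {ι : Type} (U : Vec d ≃ₗᵢ[ℝ] Vec d) (σ K N : ℝ) (ω β : ι → Vec d) : Prop :=
  ∀ (i i' : ι) (j : Fin d), (∀ l, l ≤ j → |U (ω i) l - U (ω i') l| ≤ σ / N) →
    |U (β i) j - U (β i') j| ≤ K * N

/-- For the caps with constants `σ, κ` the union of the boxes translated with `g` has volume at most
`C (log N)^(-d)` times the sum of their volumes. -/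
def SmallUnion (d : ℕ) (g : ℝ → ℝ) (σ κ : ℝ) : Prop :=
  ∃ C : ℝ, 0 < C ∧ ∀ N : ℝ, 2 ≤ N → ∀ (ι : Type) [Fintype ι] (ω : ι → Vec d)
    (f : ι → Fin d → Space d), Caps σ κ N ω f →
      volume (⋃ i, box N (nor (ω i)) (f i) (centre g N (ω i))) ≤
        ENNReal.ofReal (C / Real.log N ^ d) *
          ∑ i, volume (box N (nor (ω i)) (f i) (centre g N (ω i)))

/-- For the caps with constants `σ, κ` the `L^p` norm of the sum of the boxes translated with `g` is at
least `c (log N)^(d (1 - 1/p))` times the `L^p` norm of the sum of the centred boxes. -/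
def NormLoss (d : ℕ) (g : ℝ → ℝ) (σ κ p : ℝ) : Prop :=
  ∃ c : ℝ, 0 < c ∧ ∀ N : ℝ, 2 ≤ N → ∀ (ι : Type) [Fintype ι] (ω : ι → Vec d)
    (f : ι → Fin d → Space d), Caps σ κ N ω f →
      ENNReal.ofReal (c * Real.log N ^ ((d : ℝ) * (1 - 1 / p))) *
          eLpNorm (boxSum N ω f 0) (ENNReal.ofReal p) volume ≤
        eLpNorm (boxSum N ω f (fun i => centre g N (ω i))) (ENNReal.ofReal p) volume

/-- **Necessary losses in the tube inequality in `ℝ^n`, `n = d + 1`.** -/
theorem result (d : ℕ) (hd : 1 ≤ d) : ∃ g : ℝ → ℝ, (∀ x, |g x| ≤ 2 * (1 + d)) ∧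
    (∀ σ κ : ℝ, 0 < σ → 0 < κ → SmallUnion d g σ κ ∧
      ∀ p : ℝ, 1 ≤ p → p < (d + 1) / d → NormLoss d g σ κ p) ∧
    ∀ σ : ℝ, 0 < σ → ∃ κ : ℝ, 0 < κ ∧ ∀ N : ℝ, 1 ≤ N →
      ∃ (ι : Type) (_ : Fintype ι) (ω : ι → Vec d) (f : ι → Fin d → Space d), Caps σ κ N ω f ∧
        Triangular (LinearIsometryEquiv.refl ℝ (Vec d)) σ 0 N ω (fun i => pos g N (ω i)) := by
  obtain ⟨g, hgb, hg⟩ := Pool.Agent.R251.Nec.exists_pos d
  refine ⟨g, hgb, ?_, ?_⟩
  swap
  · intro σ hσ
    obtain ⟨κ, hκ, h⟩ := Pool.Agent.R251.Nec.grid hd hσ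
    refine ⟨κ, hκ, ?_⟩
    intro N hN
    obtain ⟨ι, hι, ω, f, h1, h2, h3, h4, h5⟩ := h N hN
    refine ⟨ι, hι, ω, f, ⟨h1, h2, h3, h4⟩, ?_⟩
    intro i i' j hl
    have h6 : ω i j = ω i' j := h5 i i' j (hl j le_rfl)
    simp only [LinearIsometryEquiv.coe_refl, id_eq, pos, h6, sub_self, abs_zero, zero_mul, le_refl]
  intro σ κ hσ hκ
  have hd0 : (0:ℝ) < d := by exact_mod_cast hd
  set C : ℝ := 2 * 1000 ^ d * (1 + d) ^ (d + 1) / κ with hC
  have hC0 : 0 < C := by positivity
  -- the union is in the big set, whose volume is small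
  have hsub : ∀ N : ℝ, 2 ≤ N → ∀ (ι : Type) [Fintype ι] (ω : ι → Vec d)
      (f : ι → Fin d → Space d), Caps σ κ N ω f → ∀ i,
      box N (nor (ω i)) (f i) (centre g N (ω i)) ⊆ Pool.Agent.R251.Nec.big d N := by
    intro N hN ι _ ω f hcaps i
    exact Pool.Agent.R251.Nec.box_sub_big hN hg (hcaps.1 i) (hcaps.2.2.2 i)
  have hbig : ∀ N : ℝ, 2 ≤ N → ∀ (ι : Type) [Fintype ι] (ω : ι → Vec d)
      (f : ι → Fin d → Space d), Caps σ κ N ω f →
      volume (Pool.Agent.R251.Nec.big d N) ≤
        ENNReal.ofReal (C / Real.log N ^ d * ((Fintype.card ι : ℝ) * N ^ (d + 2))) := by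
    intro N hN ι _ ω f hcaps
    have hN0 : 0 < N := by linarith
    have hL0 : 0 < Real.log N := Real.log_pos (by linarith)
    refine (Pool.Agent.R251.Nec.big_vol d hN).trans (ENNReal.ofReal_le_ofReal ?_)
    have h1 : κ * N ^ (2 * d + 2) ≤ (Fintype.card ι : ℝ) * N ^ (d + 2) := by
      have h2 := mul_le_mul_of_nonneg_right hcaps.2.2.1 (show 0 ≤ N ^ (d + 2) by positivity)
      have h3 : κ * N ^ d * N ^ (d + 2) = κ * N ^ (2 * d + 2) := by ring
      rw [h3] at h2
      exact h2
    calc 2 * 1000 ^ d * (1 + (d:ℝ)) ^ (d + 1) * N ^ (2 * d + 2) / Real.log N ^ d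
        = C / Real.log N ^ d * (κ * N ^ (2 * d + 2)) := by
          rw [hC]
          field_simp
      _ ≤ _ := by gcongr
  refine ⟨⟨C, hC0, ?_⟩, ?_⟩
  · intro N hN ι _ ω f hcaps
    have hN0 : 0 < N := by linarith
    have hL0 : 0 < Real.log N := Real.log_pos (by linarith)
    have h1 : ∑ i, volume (box N (nor (ω i)) (f i) (centre g N (ω i))) =
        ENNReal.ofReal ((Fintype.card ι : ℝ) * N ^ (d + 2)) := by
      have h2 : ∀ i, volume (box N (nor (ω i)) (f i) (centre g N (ω i))) =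
          ENNReal.ofReal (N ^ (d + 2)) := fun i =>
        Pool.Agent.H810R3.Tub.vol_box (by linarith) (hcaps.2.2.2 i) _
      rw [Finset.sum_congr rfl (fun i _ => h2 i), Finset.sum_const, Finset.card_univ, nsmul_eq_mul,
        ENNReal.ofReal_mul (Nat.cast_nonneg _), ENNReal.ofReal_natCast]
    rw [h1, ← ENNReal.ofReal_mul (by positivity)]
    refine (measure_mono ?_).trans (hbig N hN ι ω f hcaps)
    exact iUnion_subset (hsub N hN ι ω f hcaps)
  · intro p hp hpd
    have hpd' : (d : ℝ) * (p - 1) < 1 := by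
      rw [lt_div_iff₀ hd0] at hpd
      nlinarith
    obtain ⟨D, hD0, hD⟩ := Pool.Agent.R251.Nec.centred d hd hσ hp hpd'
    have hp0 : 0 < p := by linarith
    refine ⟨(D ^ (1 / p) * C ^ (1 - 1 / p))⁻¹, by positivity, ?_⟩
    intro N hN ι _ ω f hcaps
    have hN0 : 0 < N := by linarith
    have hL0 : 0 < Real.log N := Real.log_pos (by linarith)
    have hcard0 : (0:ℝ) < (Fintype.card ι : ℝ) := by
      have h1 : 0 < κ * N ^ d := by positivity
      linarith [hcaps.2.2.1]
    set M : ℝ := (Fintype.card ι : ℝ) * N ^ (d + 2) with hM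
    have hM0 : 0 < M := by positivity
    have hpne : ENNReal.ofReal p ≠ 0 := by
      rw [ne_eq, ENNReal.ofReal_eq_zero, not_le]
      exact hp0
    rw [eLpNorm_eq_lintegral_rpow_enorm_toReal hpne ENNReal.ofReal_ne_top,
      eLpNorm_eq_lintegral_rpow_enorm_toReal hpne ENNReal.ofReal_ne_top, ENNReal.toReal_ofReal hp0.le]
    have e1 : ∫⁻ y : Space d, ‖boxSum N ω f (fun i => centre g N (ω i)) y‖ₑ ^ p =
        ∫⁻ y, Pool.Agent.H810R3.Tub.Fb N ω f (fun i => centre g N (ω i)) y ^ p := by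
      refine lintegral_congr fun y => ?_
      rw [← Pool.Agent.H810R3.Tub.enorm_sum_box]
      rfl
    have e2 : ∫⁻ y : Space d, ‖boxSum N ω f 0 y‖ₑ ^ p =
        ∫⁻ y, Pool.Agent.H810R3.Tub.Fb N ω f (fun _ => 0) y ^ p := by
      refine lintegral_congr fun y => ?_
      rw [← Pool.Agent.H810R3.Tub.enorm_sum_box]
      rfl
    rw [e1, e2]
    have hup : ∫⁻ y, Pool.Agent.H810R3.Tub.Fb N ω f (fun _ => 0) y ^ p ≤ ENNReal.ofReal (D * M) :=
      hD N (by linarith) ι ω f hcaps.1 hcaps.2.1 hcaps.2.2.2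
    have hlow : ENNReal.ofReal (M * (Real.log N ^ d / C) ^ (p - 1)) ≤
        ∫⁻ y, Pool.Agent.H810R3.Tub.Fb N ω f (fun i => centre g N (ω i)) y ^ p := by
      have h1 := Pool.Agent.H810R3.Tub.lower (μ := (volume : Measure (Space d)))
        (Pool.Agent.H810R3.Tub.Fb_measurable N ω f (fun i => centre g N (ω i)))
        (B := Pool.Agent.R251.Nec.big d N) (Pool.Agent.R251.Nec.big_closed d N).measurableSet (by
          intro y hy
          unfold Pool.Agent.H810R3.Tub.Fb
          apply Finset.sum_eq_zero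
          intro i _
          exact indicator_of_notMem (fun h => hy (hsub N hN ι ω f hcaps i h)) _) hp
      have h2 : ∫⁻ y, Pool.Agent.H810R3.Tub.Fb N ω f (fun i => centre g N (ω i)) y =
          ENNReal.ofReal M := Pool.Agent.H810R3.Tub.Fb_int (by linarith) hcaps.2.2.2 _
      rw [h2, ENNReal.ofReal_rpow_of_pos hM0] at h1
      have h3 := (hbig N hN ι ω f hcaps)
      rw [← hM] at h3
      have hB0 : 0 < C / Real.log N ^ d * M := by positivity
      have h4 := h1.trans (mul_le_mul' le_rfl (ENNReal.rpow_le_rpow h3 (by linarith : 0 ≤ p - 1)))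
      rw [ENNReal.ofReal_rpow_of_pos hB0] at h4
      have hBp : 0 < (C / Real.log N ^ d * M) ^ (p - 1) := Real.rpow_pos_of_pos hB0 _
      have h5 : ENNReal.ofReal (M ^ p / (C / Real.log N ^ d * M) ^ (p - 1)) ≤
          ∫⁻ y, Pool.Agent.H810R3.Tub.Fb N ω f (fun i => centre g N (ω i)) y ^ p := by
        rw [ENNReal.ofReal_div_of_pos hBp]
        exact ENNReal.div_le_of_le_mul h4
      refine le_trans (ENNReal.ofReal_le_ofReal (le_of_eq ?_)) h5
      rw [eq_div_iff hBp.ne', Real.mul_rpow (by positivity) hM0.le]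
      have e3 : (Real.log N ^ d / C) ^ (p - 1) * (C / Real.log N ^ d) ^ (p - 1) = 1 := by
        rw [← Real.mul_rpow (by positivity) (by positivity)]
        have : Real.log N ^ d / C * (C / Real.log N ^ d) = 1 := by field_simp
        rw [this, Real.one_rpow]
      have e4 : M * M ^ (p - 1) = M ^ p := by
        rw [← Real.rpow_one_add' hM0.le (by linarith)]
        congr 1
        ring
      calc M * (Real.log N ^ d / C) ^ (p - 1) * ((C / Real.log N ^ d) ^ (p - 1) * M ^ (p - 1))
          = (M * M ^ (p - 1)) * ((Real.log N ^ d / C) ^ (p - 1) * (C / Real.log N ^ d) ^ (p - 1)) := by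
            ring
        _ = M ^ p := by rw [e3, e4, mul_one]
    have h1p : (0:ℝ) ≤ 1 / p := by positivity
    calc ENNReal.ofReal ((D ^ (1 / p) * C ^ (1 - 1 / p))⁻¹ * Real.log N ^ ((d : ℝ) * (1 - 1 / p))) *
          (∫⁻ y, Pool.Agent.H810R3.Tub.Fb N ω f (fun _ => 0) y ^ p) ^ (1 / p)
        ≤ ENNReal.ofReal ((D ^ (1 / p) * C ^ (1 - 1 / p))⁻¹ * Real.log N ^ ((d : ℝ) * (1 - 1 / p))) *
          (ENNReal.ofReal (D * M)) ^ (1 / p) :=
          mul_le_mul' le_rfl (ENNReal.rpow_le_rpow hup h1p)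
      _ = ENNReal.ofReal ((M * (Real.log N ^ d / C) ^ (p - 1)) ^ (1 / p)) := by
          rw [ENNReal.ofReal_rpow_of_pos (by positivity), ← ENNReal.ofReal_mul (by positivity)]
          congr 1
          rw [Real.mul_rpow hD0.le hM0.le, Real.mul_rpow hM0.le (by positivity),
            ← Real.rpow_mul (by positivity), Real.div_rpow (by positivity) hC0.le,
            ← Real.rpow_natCast (Real.log N) d, ← Real.rpow_mul hL0.le]
          have e5 : (p - 1) * (1 / p) = 1 - 1 / p := by field_simp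
          rw [e5]
          have hDp : 0 < D ^ (1 / p) := Real.rpow_pos_of_pos hD0 _
          have hCp : 0 < C ^ (1 - 1 / p) := Real.rpow_pos_of_pos hC0 _
          field_simp
      _ = (ENNReal.ofReal (M * (Real.log N ^ d / C) ^ (p - 1))) ^ (1 / p) := by
          rw [ENNReal.ofReal_rpow_of_pos (by positivity)]
      _ ≤ _ := ENNReal.rpow_le_rpow hlow h1p

end Pool.Agent.Results.MP_ac5134_an.NecessaryLosses
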