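import Pool.Agent.R134.Kak.Large

set_option autoImplicit false

/-!
# MP_ac5134: the inequality for reducible translates, without loss for `p > n/(n-1)`

Work in `ℝ^n = ℝ^d × ℝ`, `n = d + 1`, with its Euclidean norm (`Space d`), and let `P` be the
paraboloid `{(ω, |ω|²)}`, `|ω| ≤ 1`.  The box dual to the cap at `ω` is `box N (nor ω) f 0`: its long
side `N²` is in the direction of the unit normal `nor ω = (-2ω, 1)/√(1+4|ω|²)` and its other sides `N`
are in the directions of an arbitrary orthonormal frame `f` of the orthogonal complement.  Every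
translate of the box at `ω` can be given by the point `(β, 0)` where its axis meets the hyperplane of
height `0` and by the height `s` of its centre.

All families of translates in the plane are called *reducible*.  In higher dimensions a family is
reducible if in some orthonormal basis of `ℝ^d` the first coordinates of any two of the points `β`
agree up to `K N` as soon as the first coordinates of the centres `ω` of the caps agree up to `σ/N`,
and if the subfamilies for which the first coordinate of `ω` lies in an interval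
`[c σ/N, (c + 1) σ/N)`, `c ∈ ℤ`, are, after forgetting the first coordinate, reducible families in one
dimension less (with bases of `ℝ^(d-1)` which may depend on `c`).

In other words: the axes of the boxes for which `ω` has the same first coordinate lie, up to `K N`, in
one hyperplane, which depends on this coordinate in an arbitrary way, and they form a reducible family
there.  In `ℝ^3` this means: there is one plane for every value of the first coordinate of `ω`, and in
these planes the translates are arbitrary.  In `ℝ^n` all *triangular* families are reducible: the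
families such that, for every `j < d`, the `j`-th coordinate of `β` depends, up to `K N`, only on the
first `j` coordinates of `ω`, up to `σ/N` (no condition on the last coordinate).

For reducible translates with heights at most `S N²` the conjectured comparison with the centred
family is proved for all `p` in `[1, ∞]` with the constant `C N^ε`, and for all `p ≥ q`, for any given
`q > n/(n-1)`, with a constant `C` which does not depend on `N`.
-/

open MeasureTheory Set Filter Topology ENNReal NNReal Metric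

namespace Pool.Agent.Results.MP_ac5134_an.ReducibleTranslates

/-- Euclidean space `ℝ^d`. -/
abbrev Vec (d : ℕ) : Type := EuclideanSpace ℝ (Fin d)

/-- Euclidean space `ℝ^{d+1}`, written as `ℝ^d × ℝ` with the Euclidean norm. -/
abbrev Space (d : ℕ) : Type := WithLp 2 (Vec d × ℝ)

/-- The unit normal `(-2ω, 1)/√(1+4|ω|²)` of the paraboloid at the point over `ω`. -/
noncomputable def nor {d : ℕ} (ω : Vec d) : Space d :=
  (√(1 + ‖-(2 : ℝ) • ω‖ ^ 2))⁻¹ • WithLp.toLp 2 (-(2 : ℝ) • ω, (1:ℝ))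

/-- The box with centre `a`, with one side of length `N²` in the direction `e` and with sides of length
`N` in the directions `f j`. -/
def box {d : ℕ} (N : ℝ) (e : Space d) (f : Fin d → Space d) (a : Space d) : Set (Space d) :=
  {y | |inner ℝ e (y - a)| ≤ N ^ 2 / 2 ∧ ∀ j, |inner ℝ (f j) (y - a)| ≤ N / 2}

/-- The caps have centres `ω i` in the closed unit ball, `σ/N`-separated and at least `κ N^d` in
number, and `f i` is an orthonormal frame of the orthogonal complement of the normal at `ω i`. -/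
def Caps {d : ℕ} {ι : Type} [Fintype ι] (σ κ N : ℝ) (ω : ι → Vec d) (f : ι → Fin d → Space d) : Prop :=
  (∀ i, ‖ω i‖ ≤ 1) ∧ (∀ i j, i ≠ j → σ / N ≤ ‖ω i - ω j‖) ∧ κ * N ^ d ≤ (Fintype.card ι : ℝ) ∧
    ∀ i, Orthonormal ℝ (Fin.cons (nor (ω i)) (f i) : Fin (d + 1) → Space d)

/-- The sum of the indicators of the boxes of the caps with centres `a i`. -/
noncomputable def boxSum {d : ℕ} {ι : Type} [Fintype ι] (N : ℝ) (ω : ι → Vec d)
    (f : ι → Fin d → Space d) (a : ι → Space d) (y : Space d) : ℝ :=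
  ∑ i, (box N (nor (ω i)) (f i) (a i)).indicator (fun _ => (1 : ℝ)) y

/-- Orthonormal coordinates of `ℝ^d`: a linear isometry of `ℝ^d` onto itself. -/
abbrev Iso (d : ℕ) : Type := Vec d ≃ₗᵢ[ℝ] Vec d

/-- The `j`-th coordinate of `x` in the orthonormal coordinates given by `U`. -/
noncomputable def coord {d : ℕ} (U : Iso d) (x : Vec d) (j : Fin d) : ℝ := U x j

/-- The vector of the coordinates of `x`, in the orthonormal coordinates given by `U`, without the
first one (number `0`). -/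
noncomputable def rest {d : ℕ} (U : Iso (d + 1)) (x : Vec (d + 1)) : Vec d :=
  WithLp.toLp 2 (fun j => coord U x j.succ)

/-- The indices `i` in `J` such that the first coordinate of `ω i`, in the coordinates given by `U`, is
in the interval `[c δ, (c + 1) δ)`. -/
def layer (δ : ℝ) {ι : Type} {d : ℕ} (U : Iso (d + 1)) (J : Set ι) (ω : ι → Vec (d + 1)) (c : ℤ) :
    Set ι :=
  {i | i ∈ J ∧ c * δ ≤ coord U (ω i) 0 ∧ coord U (ω i) 0 < (c + 1) * δ}

/-- The family with the cap centres `ω i` and the positions `β i`, `i ∈ J`, is reducible, with the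
scale `δ` for the cap centres and the scale `ρ` for the positions. -/
inductive Reducible (δ ρ : ℝ) {ι : Type} : (d : ℕ) → Set ι → (ι → Vec d) → (ι → Vec d) → Prop
  | planar (d : ℕ) (J : Set ι) (ω β : ι → Vec d) (hd : d ≤ 1) : Reducible δ ρ d J ω β
  | split (d : ℕ) (J : Set ι) (ω β : ι → Vec (d + 1)) (U : Iso (d + 1))
      (h1 : ∀ i ∈ J, ∀ i' ∈ J, |coord U (ω i) 0 - coord U (ω i') 0| ≤ δ →
        |coord U (β i) 0 - coord U (β i') 0| ≤ ρ)
      (h2 : ∀ c : ℤ, Reducible δ ρ d (layer δ U J ω c) (fun i => rest U (ω i))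
        (fun i => rest U (β i))) : Reducible δ ρ (d + 1) J ω β

/-- The positions `β i` are triangular in the orthonormal coordinates given by `U`: if the first `j`
coordinates of two cap centres agree up to `δ`, then the `j`-th coordinates of the two positions agree
up to `ρ`, for all `j` but the last. -/
def Triangular (δ ρ : ℝ) {d : ℕ} {ι : Type} (U : Iso d) (ω β : ι → Vec d) : Prop :=
  ∀ (i i' : ι) (j : Fin d), (j : ℕ) + 1 < d →
    (∀ l, l ≤ j → |coord U (ω i) l - coord U (ω i') l| ≤ δ) →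
    |coord U (β i) j - coord U (β i') j| ≤ ρ

theorem Reducible.of_forall {δ ρ : ℝ} {ι : Type} : ∀ (d : ℕ) (J : Set ι) (v β : ι → Vec d),
    (∀ i ∈ J, ∀ i' ∈ J, ∀ j : Fin d, (j : ℕ) + 1 < d → (∀ l, l ≤ j → |v i l - v i' l| ≤ δ) →
      |β i j - β i' j| ≤ ρ) → Reducible δ ρ d J v β
  | 0, _, _, _, _ => Reducible.planar _ _ _ _ (by omega)
  | 1, _, _, _, _ => Reducible.planar _ _ _ _ (by omega)
  | d + 2, J, v, β, h => by
    refine Reducible.split _ _ _ _ (LinearIsometryEquiv.refl ℝ _) ?_ ?_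
    · intro i hi i' hi' h0
      apply h i hi i' hi' 0 (by simp)
      intro l hl
      have : l = 0 := le_antisymm hl (Fin.zero_le _)
      rw [this]
      exact h0
    · intro c
      apply Reducible.of_forall (d + 1)
      intro i hi i' hi' j hjd hj
      obtain ⟨hiJ, h1, h2⟩ := hi
      obtain ⟨hiJ', h3, h4⟩ := hi'
      apply h i hiJ i' hiJ' j.succ (by rw [Fin.val_succ]; omega)
      intro l hl
      refine Fin.cases ?_ (fun l => ?_) l hl
      · intro _
        have e1 : coord (LinearIsometryEquiv.refl ℝ (Vec (d + 2))) (v i) 0 = v i 0 := rfl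
        have e2 : coord (LinearIsometryEquiv.refl ℝ (Vec (d + 2))) (v i') 0 = v i' 0 := rfl
        rw [e1] at h1 h2
        rw [e2] at h3 h4
        rw [abs_le]
        constructor <;> linarith
      · intro hl'
        exact hj l (Fin.succ_le_succ_iff.1 hl')

/-- Triangular families are reducible. -/
theorem Triangular.reducible {δ ρ : ℝ} {d : ℕ} {ι : Type} {U : Iso d}
    {v β : ι → Vec d} (h : Triangular δ ρ U v β) : Reducible δ ρ d univ v β := by
  match d with
  | 0 => exact Reducible.planar _ _ _ _ (by omega)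
  | 1 => exact Reducible.planar _ _ _ _ (by omega)
  | d + 2 =>
    refine Reducible.split _ _ _ _ U ?_ ?_
    · intro i _ i' _ h0
      apply h i i' 0 (by simp)
      intro l hl
      have : l = 0 := le_antisymm hl (Fin.zero_le _)
      rw [this]
      exact h0
    · intro c
      apply Reducible.of_forall (d + 1)
      intro i hi i' hi' j hjd hj
      obtain ⟨-, h1, h2⟩ := hi
      obtain ⟨-, h3, h4⟩ := hi'
      apply h i i' j.succ (by rw [Fin.val_succ]; omega)
      intro l hl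
      refine Fin.cases ?_ (fun l => ?_) l hl
      · intro _
        rw [abs_le]
        constructor <;> linarith
      · intro hl'
        exact hj l (Fin.succ_le_succ_iff.1 hl')

theorem Reducible.toRed {K δ N : ℝ} (hδ : 0 < δ) (hN : 0 < N) {ι : Type} :
    ∀ (d : ℕ) (J : Finset ι) (v β : ι → Vec d), Reducible δ (K * N) d (J : Set ι) v β →
    Pool.Agent.R134.Kak.Red K d J (fun i => δ⁻¹ • v i) (fun i => N⁻¹ • β i)
  | 0, _, _, _, _ => trivial
  | 1, _, _, _, _ => trivial
  | d + 2, J, v, β, h => by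
    classical
    obtain ⟨U, h1, h2⟩ : ∃ U : Vec (d + 2) ≃ₗᵢ[ℝ] Vec (d + 2),
        (∀ i ∈ (J : Set ι), ∀ i' ∈ (J : Set ι), |U (v i) 0 - U (v i') 0| ≤ δ →
          |U (β i) 0 - U (β i') 0| ≤ K * N) ∧
        ∀ c : ℤ, Reducible δ (K * N) (d + 1) (layer δ U J v c) (fun i => rest U (v i))
          (fun i => rest U (β i)) := by
      cases h with
      | planar _ _ _ _ hd => omega
      | split _ _ _ _ U h1 h2 => exact ⟨U, h1, h2⟩
    have hδ' : 0 < δ⁻¹ := inv_pos.2 hδ
    have hN' : 0 < N⁻¹ := inv_pos.2 hN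
    have hsc : ∀ (a : ℝ) (x : Vec (d + 2)), U (a • x) 0 = a * U x 0 := by
      intro a x
      rw [map_smul]
      rfl
    refine ⟨U, ?_, ?_⟩
    · intro i hi i' hi' h0
      rw [hsc, hsc, ← mul_sub, abs_mul, abs_of_pos hδ'] at h0
      rw [hsc, hsc, ← mul_sub, abs_mul, abs_of_pos hN']
      have h3 := h1 i (Finset.mem_coe.2 hi) i' (Finset.mem_coe.2 hi') (by
        rw [inv_mul_le_iff₀ hδ] at h0
        linarith)
      rw [inv_mul_le_iff₀ hN]
      linarith
    · intro c
      have h3 := h2 c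
      have e : layer δ U (J : Set ι) v c =
          ((J.filter (fun i => ⌊U (δ⁻¹ • v i) 0⌋ = c) : Finset ι) : Set ι) := by
        ext i
        show i ∈ (J : Set ι) ∧ c * δ ≤ U (v i) 0 ∧ U (v i) 0 < (c + 1) * δ ↔ _
        rw [Finset.mem_coe, Finset.mem_coe, Finset.mem_filter, hsc, Int.floor_eq_iff,
          inv_mul_eq_div, le_div_iff₀ hδ, div_lt_iff₀ hδ]
      rw [e] at h3
      have ht : ∀ (a : ℝ) (w : ι → Vec (d + 2)), (fun i => Pool.Agent.R134.Kak.tl (U (a • w i))) =
          fun i => a • rest U (w i) := by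
        intro a w
        funext i
        rw [map_smul]
        rfl
      show Pool.Agent.R134.Kak.Red K (d + 1) (J.filter (fun i => ⌊U (δ⁻¹ • v i) 0⌋ = c))
        (fun i => Pool.Agent.R134.Kak.tl (U (δ⁻¹ • v i))) (fun i => Pool.Agent.R134.Kak.tl (U (N⁻¹ • β i)))
      rw [ht δ⁻¹ v, ht N⁻¹ β]
      exact Reducible.toRed hδ hN (d + 1) _ _ _ h3

/-- The family: caps with `Caps σ κ N ω f`, heights `s i` of the centres of the translates at most
`S N²` and reducible positions `β i`, with the constant `K`. -/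
def Family {d : ℕ} {ι : Type} [Fintype ι] (σ κ K S N : ℝ) (ω β : ι → Vec d) (s : ι → ℝ)
    (f : ι → Fin d → Space d) : Prop :=
  Caps σ κ N ω f ∧ (∀ i, |s i| ≤ S * N ^ 2) ∧ Reducible (σ / N) (K * N) d univ ω β

/-- The centre, at the height `s`, of the translate of the box at `ω` with the position `β`. -/
def centre {d : ℕ} (ω β : Vec d) (s : ℝ) : Space d := WithLp.toLp 2 (β + s • (-(2 : ℝ) • ω), s)

/-- The comparison of the `L^p` norms with the constant `C`. -/
def Ineq {d : ℕ} {ι : Type} [Fintype ι] (p : ℝ≥0∞) (C N : ℝ) (ω β : ι → Vec d) (s : ι → ℝ)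
    (f : ι → Fin d → Space d) : Prop :=
  eLpNorm (boxSum N ω f (fun i => centre (ω i) (β i) (s i))) p volume ≤
    ENNReal.ofReal C * eLpNorm (boxSum N ω f 0) p volume

theorem all_exponents (e : ℕ) (σ κ : ℝ) (hσ : 0 < σ) (hσ1 : σ ≤ 1) (hκ : 0 < κ)
    (K S : ℝ≥0) (ε : ℝ) (hε : 0 < ε) : ∃ C : ℝ, 0 < C ∧ ∀ N : ℝ, 1 ≤ N → ∀ (ι : Type) [Fintype ι]
      (ω β : ι → Vec (e + 1)) (s : ι → ℝ) (f : ι → Fin (e + 1) → Space (e + 1)),
      Family σ κ K S N ω β s f → ∀ p : ℝ≥0∞, 1 ≤ p → Ineq p (C * N ^ ε) N ω β s f := by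
  have hdc : (((e + 1 : ℕ) : ℝ)) = (e : ℝ) + 1 := by push_cast; rfl
  have hd0 : (0 : ℝ) < ((e + 1 : ℕ) : ℝ) := by rw [hdc]; positivity
  set d : ℕ := e + 1 with hd
  have hd1 : (1 : ℝ) ≤ d := by
    rw [hdc]
    have : (0 : ℝ) ≤ e := Nat.cast_nonneg _
    linarith
  set η : ℝ := min ε (1 / 2) with hη
  have hη0 : 0 < η := lt_min hε (by norm_num)
  have hηε : η ≤ ε := min_le_left _ _
  have hη2 : η ≤ 1 / 2 := min_le_right _ _
  have hdη : 0 < (d : ℝ) - η := by linarith
  set q : ℝ := ((d : ℝ) + 1) / (d - η) with hq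
  have hq1 : 1 < q := by
    rw [hq, lt_div_iff₀ hdη]
    linarith
  have hqc : 1 + 1 / ((e : ℝ) + 1) < q := by
    rw [← hdc]
    have h1 : 1 + 1 / (d : ℝ) = ((d : ℝ) + 1) / d := by field_simp
    rw [h1, hq]
    apply div_lt_div_of_pos_left (by positivity) hdη
    linarith
  have hηq : d * q - d - 1 = η * q := by
    have : q * (d - η) = d + 1 := div_mul_cancel₀ _ hdη.ne'
    linarith
  obtain ⟨E, hE0, hE⟩ := Pool.Agent.R134.Kak.box_int e hqc hσ hσ1 K S
  have hw0 : 0 < Pool.Agent.H810R3.Tub.wv d := Pool.Agent.H810R3.Tub.wv_pos d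
  set b₀ : ℝ := (1 + (d : ℝ)) ^ (d + 1) * Pool.Agent.H810R3.Tub.wv d with hb₀
  have hb0 : 0 < b₀ := by positivity
  set C0 : ℝ := max 1 (max (E * b₀ ^ (q - 1) * κ ^ (-(1 / (d : ℝ))))
    (E * κ ^ (-(1 / (d : ℝ))) * 2 ^ (d + 1) / Pool.Agent.H810R3.Tub.wv d)) with hC0
  have hC1 : 1 ≤ C0 := le_max_left _ _
  have hC2 : E * b₀ ^ (q - 1) * κ ^ (-(1 / (d : ℝ))) ≤ C0 := (le_max_left _ _).trans (le_max_right _ _)
  have hC3 : E * κ ^ (-(1 / (d : ℝ))) * 2 ^ (d + 1) / Pool.Agent.H810R3.Tub.wv d ≤ C0 :=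
    (le_max_right _ _).trans (le_max_right _ _)
  have hC00 : 0 < C0 := by linarith
  have hq0 : 0 < q := by linarith
  refine ⟨C0 ^ (1 / q), Real.rpow_pos_of_pos hC00 _, ?_⟩
  intro N hN ι _ ω β s f ⟨⟨hω, hsep, hcard, hf⟩, hs, hR⟩ p hp
  have hN0 : 0 < N := by linarith
  have hc0 : (0 : ℝ) < (Fintype.card ι : ℝ) := lt_of_lt_of_le (by positivity) hcard
  have hne : Nonempty ι := by
    rw [← Fintype.card_pos_iff]
    exact_mod_cast hc0
  have hD1 : 1 ≤ C0 ^ (1 / q) * N ^ ε := by
    have h1 : 1 ≤ C0 ^ (1 / q) := Real.one_le_rpow hC1 (by positivity)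
    have h3 : 1 ≤ N ^ ε := Real.one_le_rpow hN hε.le
    calc (1 : ℝ) = 1 * 1 := by ring
      _ ≤ C0 ^ (1 / q) * N ^ ε := by gcongr
  have hDq : (C0 ^ (1 / q) * N ^ ε) ^ q = C0 * 1 * N ^ (ε * q) := by
    rw [Real.mul_rpow (by positivity) (by positivity),
      ← Real.rpow_mul hC00.le, ← Real.rpow_mul hN0.le, one_div_mul_cancel hq0.ne', Real.rpow_one, mul_one]
  have hRed : Pool.Agent.R134.Kak.Red K d Finset.univ (fun i => (N / σ) • ω i) (fun i => N⁻¹ • β i) := by
    have h1 := Reducible.toRed (δ := σ / N) (N := N) (K := K) (by positivity) hN0 d Finset.univ ω β (by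
      rw [Finset.coe_univ]
      exact hR)
    rwa [inv_div] at h1
  have hQi := hE N hN ι ω β s f hω hsep hf hs hRed
  rw [← hdc] at hQi
  have hQi' : ∫⁻ y, Pool.Agent.H810R3.Tub.Fb N ω f
      (fun i => WithLp.toLp 2 (β i + s i • (-(2 : ℝ) • ω i), s i)) y ^ q ≤
      ENNReal.ofReal (E * 1 * N ^ (d + 2) * (Fintype.card ι : ℝ) ^ (q - 1 / (d : ℝ))) := by
    rw [mul_one]
    exact hQi
  refine Pool.Agent.H810R3.Tub.compare d hN hq1 (by positivity) hD1 ω f hf _ hQi' ?_ ?_ p hp
  · rw [hDq]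
    exact Pool.Agent.H810R3.Tub.arith1 hd0 hE0 one_pos hq1 hηq hηε hN hκ hcard hb0 hC2
  · rw [hDq]
    exact Pool.Agent.H810R3.Tub.arith2 hd0 hE0 one_pos hq1 hε hN hκ hcard hw0 hC3

theorem large_exponents (e : ℕ) (σ κ : ℝ) (hσ : 0 < σ) (hσ1 : σ ≤ 1) (hκ : 0 < κ)
    (K S : ℝ≥0) (q : ℝ) (hq : 1 + 1 / ((e : ℝ) + 1) < q) : ∃ C : ℝ, 0 < C ∧ ∀ N : ℝ, 1 ≤ N →
      ∀ (ι : Type) [Fintype ι] (ω β : ι → Vec (e + 1)) (s : ι → ℝ) (f : ι → Fin (e + 1) → Space (e + 1)),
      Family σ κ K S N ω β s f → ∀ p : ℝ≥0∞, ENNReal.ofReal q ≤ p → Ineq p C N ω β s f := by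
  have hdc : (((e + 1 : ℕ) : ℝ)) = (e : ℝ) + 1 := by push_cast; rfl
  have hd0 : (0 : ℝ) < ((e + 1 : ℕ) : ℝ) := by rw [hdc]; positivity
  have hq1 : 1 < q := by
    have : 0 < 1 / ((e : ℝ) + 1) := by positivity
    linarith
  have hq0 : 0 < q := by linarith
  set d : ℕ := e + 1 with hd
  obtain ⟨E, hE0, hE⟩ := Pool.Agent.R134.Kak.box_int e hq hσ hσ1 K S
  have hw0 : 0 < Pool.Agent.H810R3.Tub.wv d := Pool.Agent.H810R3.Tub.wv_pos d
  set C0 : ℝ := max 1 (E * κ ^ (-(1 / (d : ℝ))) * 2 ^ (d + 1) / Pool.Agent.H810R3.Tub.wv d) with hC0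
  have hC1 : 1 ≤ C0 := le_max_left _ _
  have hC3 : E * κ ^ (-(1 / (d : ℝ))) * 2 ^ (d + 1) / Pool.Agent.H810R3.Tub.wv d ≤ C0 := le_max_right _ _
  have hC00 : 0 < C0 := by linarith
  refine ⟨C0 ^ (1 / q), Real.rpow_pos_of_pos hC00 _, ?_⟩
  intro N hN ι _ ω β s f ⟨⟨hω, hsep, hcard, hf⟩, hs, hR⟩ p hp
  have hN0 : 0 < N := by linarith
  have hc0 : (0 : ℝ) < (Fintype.card ι : ℝ) := lt_of_lt_of_le (by positivity) hcard
  have hne : Nonempty ι := by
    rw [← Fintype.card_pos_iff]
    exact_mod_cast hc0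
  have hDq : (C0 ^ (1 / q)) ^ q = C0 := by
    rw [← Real.rpow_mul hC00.le, one_div_mul_cancel hq0.ne', Real.rpow_one]
  have hRed : Pool.Agent.R134.Kak.Red K d Finset.univ (fun i => (N / σ) • ω i) (fun i => N⁻¹ • β i) := by
    have h1 := Reducible.toRed (δ := σ / N) (N := N) (K := K) (by positivity) hN0 d Finset.univ ω β (by
      rw [Finset.coe_univ]
      exact hR)
    rwa [inv_div] at h1
  have hQi := hE N hN ι ω β s f hω hsep hf hs hRed
  rw [← hdc] at hQi
  have hD1 : 1 ≤ C0 ^ (1 / q) := Real.one_le_rpow hC1 (by positivity)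
  refine Pool.Agent.R134.Kak.compare_large d hN hq1 hD1 ω f hf _ hQi ?_ p hp
  exact Pool.Agent.R134.Kak.arith_large hd0 hE0 hN hκ hcard hw0 (by rw [hDq]; exact hC3)

/-- **The comparison for reducible translates**: for all `p` in `[1, ∞]` with the constant `C N^ε`, for
all `p ≥ q > n/(n-1)` with a constant independent of `N`.  The last part says that the theorem applies
to triangular translates. -/
theorem result (d : ℕ) (hd : 1 ≤ d) (σ κ : ℝ) (hσ : 0 < σ) (hσ1 : σ ≤ 1) (hκ : 0 < κ) (K S : ℝ≥0) :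
    (∀ ε : ℝ, 0 < ε → ∃ C : ℝ, 0 < C ∧ ∀ N : ℝ, 1 ≤ N → ∀ (ι : Type) [Fintype ι]
      (ω β : ι → Vec d) (s : ι → ℝ) (f : ι → Fin d → Space d),
      Family σ κ K S N ω β s f → ∀ p : ℝ≥0∞, 1 ≤ p → Ineq p (C * N ^ ε) N ω β s f) ∧
    (∀ q : ℝ, ((d : ℝ) + 1) / d < q → ∃ C : ℝ, 0 < C ∧ ∀ N : ℝ, 1 ≤ N → ∀ (ι : Type) [Fintype ι]
      (ω β : ι → Vec d) (s : ι → ℝ) (f : ι → Fin d → Space d),
      Family σ κ K S N ω β s f → ∀ p : ℝ≥0∞, ENNReal.ofReal q ≤ p → Ineq p C N ω β s f) ∧
    ∀ (δ ρ : ℝ) (ι : Type) (ω β : ι → Vec d) (U : Iso d),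
      Triangular δ ρ U ω β → Reducible δ ρ d univ ω β := by
  obtain ⟨e, rfl⟩ : ∃ e, d = e + 1 := ⟨d - 1, by omega⟩
  refine ⟨fun ε hε => all_exponents e σ κ hσ hσ1 hκ K S ε hε, fun q hq => ?_,
    fun δ ρ ι ω β U h => h.reducible⟩
  apply large_exponents e σ κ hσ hσ1 hκ K S q
  have hcast : ((e + 1 : ℕ) : ℝ) = (e : ℝ) + 1 := by push_cast; rfl
  have he : (0 : ℝ) < (e : ℝ) + 1 := by positivity
  rw [hcast] at hq
  refine lt_of_le_of_lt (le_of_eq ?_) hq
  field_simp

end Pool.Agent.Results.MP_ac5134_an.ReducibleTranslates
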